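import Pool.Agent.Helper76.TL.StC7

/-!
# Module EDGE7 of project TL: values on translated paths with the sign, prime 7
-/

set_option autoImplicit false

namespace Pool.Agent.Helper8.TL

open Pool.Agent.Helper14.CV (Homog EqC act StFar)
open Pool.Agent.Helper76.S7 Pool.Agent.Helper76.TL7 Pool.Agent.Helper4.TL

private lemma vec_ne {e X Y u1 u2 : ℤ} (hu : u1 ≠ 0 ∨ u2 ≠ 0) :
    u1 + e * X * u2 ≠ 0 ∨ 7 * Y * u1 + (1 + e * 7 * X * Y) * u2 ≠ 0 := by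
  by_contra h
  push Not at h
  obtain ⟨h1, h2⟩ := h
  have e2 : u2 = 0 := by linear_combination h2 - 7 * Y * h1
  have e1 : u1 = 0 := by rw [e2] at h1; linear_combination h1
  rcases hu with hu | hu
  · exact hu e1
  · exact hu e2

theorem hEdgE7 : StEEdg7 := by
  intro hPlA hPlU R _ μ r s G hG u1 u2 v1 v2 hu hv x y a b c d hP
  obtain ⟨α, β, γ, δ, hdet, hβ, hγ, h1, h2, h3, h4⟩ :=
    hPlU μ r s x y 1 (x.val : ℤ) (rY7 μ x y) (1 + 7 ^ (μ + 1) * (x.val : ℤ) * rY7 μ x y) a b c d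
      (hPlA μ r s x y) hP
  obtain ⟨k, hk⟩ := hG.2 α β γ δ hdet (by exact_mod_cast hβ) (by exact_mod_cast hγ)
  have key : ∀ w1 w2 : ℤ, (w1 ≠ 0 ∨ w2 ≠ 0) → G (a * w1 + 7 ^ μ * b * w2) (7 * c * w1 + d * w2)
      = eps α β γ δ • G (w1 + 7 ^ μ * (x.val : ℤ) * w2)
        (7 * rY7 μ x y * w1 + (1 + 7 ^ (μ + 1) * (x.val : ℤ) * rY7 μ x y) * w2) + k := by
    intro w1 w2 hw
    have hne := vec_ne (e := 7 ^ μ) (X := (x.val : ℤ)) (Y := rY7 μ x y) hw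
    have hD : (1 + 7 ^ μ * 7 * (x.val : ℤ) * rY7 μ x y) = 1 + 7 ^ (μ + 1) * (x.val : ℤ) * rY7 μ x y := by
      rw [pow_succ]
    rw [hD] at hne
    have h0 := hk _ _ hne
    rw [act] at h0
    have e0 : (eps α β γ δ • G) (w1 + 7 ^ μ * (x.val : ℤ) * w2)
        (7 * rY7 μ x y * w1 + (1 + 7 ^ (μ + 1) * (x.val : ℤ) * rY7 μ x y) * w2) =
        eps α β γ δ • G (w1 + 7 ^ μ * (x.val : ℤ) * w2)
        (7 * rY7 μ x y * w1 + (1 + 7 ^ (μ + 1) * (x.val : ℤ) * rY7 μ x y) * w2) := rfl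
    rw [e0] at h0
    rw [← h0]
    congr 1
    · linear_combination w1 * h1 + w2 * h2
    · linear_combination w1 * h3 + w2 * h4
  have hd1 : ¬ (2 : ℤ) ∣ α * δ - β * γ := by
    rw [hdet]
    norm_num
  have hd2 : ¬ (2 : ℤ) ∣ 1 * (1 + 7 ^ (μ + 1) * (x.val : ℤ) * rY7 μ x y) -
      (7 ^ μ * (x.val : ℤ)) * (7 * rY7 μ x y) := by
    have e : 1 * (1 + 7 ^ (μ + 1) * (x.val : ℤ) * rY7 μ x y) -
      (7 ^ μ * (x.val : ℤ)) * (7 * rY7 μ x y) = 1 := by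
      rw [pow_succ]
      ring
    rw [e]
    norm_num
  have hm := eps_mul hd1 hd2
  rw [← h1, ← h2, ← h3, ← h4] at hm
  rw [edgeE7, key u1 u2 hu, key v1 v2 hv, add_sub_add_right_eq_sub, ← smul_sub, hm, smul_smul]
  have e1 : eps α β γ δ * eps 1 (7 ^ μ * (x.val : ℤ)) (7 * rY7 μ x y)
      (1 + 7 ^ (μ + 1) * (x.val : ℤ) * rY7 μ x y) * eps α β γ δ =
      eps 1 (7 ^ μ * (x.val : ℤ)) (7 * rY7 μ x y)
      (1 + 7 ^ (μ + 1) * (x.val : ℤ) * rY7 μ x y) := by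
    have h0 := eps_sq α β γ δ
    linear_combination eps 1 (7 ^ μ * (x.val : ℤ)) (7 * rY7 μ x y)
      (1 + 7 ^ (μ + 1) * (x.val : ℤ) * rY7 μ x y) * h0
  rw [e1, edge7]

end Pool.Agent.Helper8.TL
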